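import Pool.Agent.H60Gulko.Whole

/-!
# Compact spaces whose square is weakly σ-metacompact off the diagonal are Gul'ko compact
-/

set_option autoImplicit false

namespace Pool.Agent.Results.MP_294ed4_gt.GulkoCompact

open Pool.Agent.H60Gulko

universe u

/-- If `X` is compact Hausdorff and the complement of the diagonal in `X × X` is weakly
σ-metacompact, then `X` is Gul'ko compact: the space of continuous real functions on `X`, with the
topology of pointwise convergence (the subspace topology of the product `X → ℝ`), is a Lindelof
Sigma-space. -/
theorem result {X : Type u} [TopologicalSpace X] [CompactSpace X] [T2Space X]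
    (h : WeaklySigmaMetacompact {p : X × X // p.1 ≠ p.2}) :
    LindelofSigma {f : X → ℝ // Continuous f} :=
  lindelofSigma_of_offDiag h

end Pool.Agent.Results.MP_294ed4_gt.GulkoCompact
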