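import Pool.Agent.H60Gulko.Boxes

/-!
# Compact spaces whose square is weakly σ-metacompact off the diagonal have hereditarily weakly
σ-metacompact squares
-/

set_option autoImplicit false

namespace Pool.Agent.Results.MP_294ed4_gt.HereditarySquare

open Pool.Agent.H60Gulko

universe u

/-- If `X` is compact Hausdorff and the complement of the diagonal in `X × X` is weakly
σ-metacompact, then every subspace of `X × X` is weakly σ-metacompact. -/
theorem result {X : Type u} [TopologicalSpace X] [CompactSpace X] [T2Space X]
    (h : WeaklySigmaMetacompact {p : X × X // p.1 ≠ p.2}) :
    ∀ Z : Set (X × X), WeaklySigmaMetacompact Z :=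
  hereditary_of_offDiag h

end Pool.Agent.Results.MP_294ed4_gt.HereditarySquare
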